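import Pool.Agent.H95.FJ.Top4
import Pool.Agent.H12.FJ.MXE
import Pool.Agent.H17.FJ.GRE
import Pool.Agent.H32.FJ.KEYA
import Pool.Agent.H59.FJ.SPAN
import Pool.Agent.H61.FJ.SEMP
import Pool.Agent.H72.FJ.KEY
import Pool.Agent.H83.FJ.SEML
import Pool.Agent.H85.FJ.LOC
import Pool.Agent.H87.FJ.OPEN

namespace H95.FJ
open H95.FG H95.FI

theorem all_SEML : S_SEML := Pool.Agent.H83.FJ.t_SEML H61.FJ.t_SEMP
theorem all_OPEN : S_OPEN := Pool.Agent.H87.FJ.t_OPEN all_SEML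
theorem all_KEYA : S_KEYA := H32.FJ.t_KEYA (H12.FJ.t_MXE H61.FJ.t_SEMP) all_OPEN
  (H85.FJ.t_LOC all_SEML all_OPEN) (H17.FJ.t_GRE all_SEML) H59.FJ.t_SPAN
theorem all_KEY : S_KEY := H72.FJ.t_KEY all_KEYA
theorem all_PSD2 : S_PSD2 := t_PSD2 all_KEY all_HD H1.FI.t_FUN t_HER all_MAC

theorem all_top4 : ∀ k n m : ℕ, 8 * k + 17 ≤ n → k * (k + 1) / 2 < n →
    m ∈ SosRanks 1 n → m + k * (k + 1) / 2 < (k + 1) * n →
    ∃ s : ℕ, s ≤ k ∧ s * n ≤ m + s * (s - 1) / 2 ∧ m ≤ s * n := top4 all_PSD2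

end H95.FJ
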