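import Pool.Agent.H95.FI.Defs

/-!
# Interface of crew FJ (MP_ce7760_an): all gaps of the SOS conjecture
-/

open MvPolynomial

namespace H95.FJ
open H95.FG H95.FI

abbrev Vn (n : ℕ) := Fin n → ℂ

/-- `E_z = span (T_a z)` -/
def EE {n s : ℕ} (T : Fin s → (Vn n →ₗ[ℂ] Vn n)) (z : Vn n) : Submodule ℂ (Vn n) :=
  Submodule.span ℂ (Set.range fun a => T a z)

/-- `T_c = ∑ c_a T_a` -/
noncomputable def TT {n s : ℕ} (T : Fin s → (Vn n →ₗ[ℂ] Vn n)) (c : Fin s → ℂ) : Vn n →ₗ[ℂ] Vn n :=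
  ∑ a, c a • T a

noncomputable def hv {n s : ℕ} (h : Fin s → Pn n) (u : Vn n) : Fin s → ℂ := fun a => eval u (h a)

/-- SEMP: the independent vectors at `t0` have dual functionals; the determinant of the pairings is
a polynomial in `t`, equal to one at `t0`. -/
def S_SEMP : Prop := ∀ (n q : ℕ) (u : Fin q → Fin n → Polynomial ℂ) (t0 : ℂ),
  LinearIndependent ℂ (fun i (k : Fin n) => (u i k).eval t0) →
  {t : ℂ | ¬ LinearIndependent ℂ (fun i (k : Fin n) => (u i k).eval t)}.Finite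

/-- SEML: the same modulo a subspace `I`, for values of linear maps on a line (compose with
functionals on the quotient, or choose an isomorphism of the quotient with `Fin d → ℂ`; SEMP). -/
def S_SEML : Prop := ∀ (n q : ℕ) (T : Fin q → (Vn n →ₗ[ℂ] Vn n)) (I : Submodule ℂ (Vn n))
  (w w' : Vn n), LinearIndependent ℂ (fun i => I.mkQ (T i w)) →
  {t : ℂ | ¬ LinearIndependent ℂ (fun i => I.mkQ (T i (w + t • (w' - w))))}.Finite

/-- OPEN: else `e` of the vectors `T_a w` together with `T_c v` are independent, hence (SEMP) for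
all but finitely many `t` the `T_a (w + t v)` with `T_c v` are; but `T_c v = t⁻¹ T_c (w + t v)` lies
in `E_{w + t v}`, of dimension at most `e`. -/
def S_OPEN : Prop := ∀ (n s e : ℕ) (T : Fin s → (Vn n →ₗ[ℂ] Vn n)),
  (∀ z, Module.finrank ℂ (EE T z) ≤ e) → ∀ w, e ≤ Module.finrank ℂ (EE T w) →
  ∀ c, TT T c w = 0 → ∀ v, TT T c v ∈ EE T w

/-- SPAN: a functional vanishing on all values gives a linear relation (`MvPolynomial.funext`). -/
def S_SPAN : Prop := ∀ (n s : ℕ) (h : Fin s → Pn n), LinearIndependent ℂ h →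
  Submodule.span ℂ (Set.range (hv h)) = ⊤

/-- LOC: suppose the dimension is at least `e + 1` at `w`. Consider `w_t = w + t (z - w)`, where
also `T_c w_t = 0`. For all but finitely many `t`: `dim E_{w_t} ≥ e` (SEML with `I = ⊥`, from
`t = 1`, i.e. with `w := z`) and `dim (E_{w_t} ⊔ range T_c) ≥ e + 1` (SEML with `I = range T_c`:
at least `e + 1 - dim range T_c` of the `T_a w` are independent modulo `range T_c`). OPEN at `w_t`:
`range T_c ≤ E_{w_t}`, contradiction. -/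
def S_LOC : Prop := ∀ (n s e : ℕ) (T : Fin s → (Vn n →ₗ[ℂ] Vn n)),
  (∀ z, Module.finrank ℂ (EE T z) ≤ e) → ∀ z, e ≤ Module.finrank ℂ (EE T z) →
  ∀ c, TT T c z = 0 → ∀ w, TT T c w = 0 →
  Module.finrank ℂ ↥(EE T w ⊔ LinearMap.range (TT T c)) ≤ e

/-- GRE: take `j` maximal with `T_1, ..., T_j` in `X` and `w ∈ K` such that the `T_i w` are
independent modulo `I` (`j ≤ q`), and `J = I ⊔ ∑ range T_i`. If `T w' ∉ J` for some `T ∈ X`,
`w' ∈ K`: on the line from `w` to `w'` the `T_i w_t` stay independent modulo `I` for all but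
finitely many `t` (SEML), so by maximality `T w_t ∈ I + span (T_i w_t) ⊆ J` for two values of `t`,
so for all `t`, also for `t = 1`. -/
def S_GRE : Prop := ∀ (n ρ q : ℕ) (K I : Submodule ℂ (Vn n)) (X : Set (Vn n →ₗ[ℂ] Vn n)),
  (∀ T ∈ X, Module.finrank ℂ (LinearMap.range T) ≤ ρ) →
  (∀ T : Fin (q + 1) → (Vn n →ₗ[ℂ] Vn n), (∀ i, T i ∈ X) → ∀ w ∈ K,
    ¬ LinearIndependent ℂ (fun i => I.mkQ (T i w))) →
  ∃ J : Submodule ℂ (Vn n), Module.finrank ℂ J ≤ Module.finrank ℂ I + q * ρ ∧ I ≤ J ∧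
    ∀ T ∈ X, ∀ w ∈ K, T w ∈ J

/-- MXE: `e`, `ρ` the maxima; a common point on the line joining two points attaining them (SEMP);
`e ≤ r` since on a line through a point with `h_0 ≠ 0` the relation `∑ h_a(z) T_a z = 0` is not
trivial for all but finitely many `t`. -/
def S_MXE : Prop := ∀ (n r : ℕ) (T : Fin (r + 1) → (Vn n →ₗ[ℂ] Vn n)) (h : Fin (r + 1) → Pn n),
  LinearIndependent ℂ h → (∀ z, TT T (hv h z) z = 0) →
  ∃ (z1 : Vn n) (e ρ : ℕ), e ≤ r ∧ (∀ z, Module.finrank ℂ (EE T z) ≤ e) ∧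
    e ≤ Module.finrank ℂ (EE T z1) ∧
    (∀ z, Module.finrank ℂ (LinearMap.range (TT T (hv h z))) ≤ ρ) ∧
    Module.finrank ℂ (LinearMap.range (TT T (hv h z1))) = ρ

/-- KEYA: `z1`, `e`, `ρ` from MXE, `K = ker T_{h(z1)}`, `I = range T_{h(z1)}`, `ρ ≤ e` (OPEN);
LOC: `dim (E_w ⊔ I) ≤ e` for `w ∈ K`; GRE with `q = e - ρ`, `X` = all `T_{h(u)}`; SPAN:
`T_c K ⊆ J` for all `c`, so `K ⊆ J` by `T 0 = id`: `n - ρ ≤ ρ + (e - ρ) ρ`. -/
def S_KEYA : Prop := ∀ (n r : ℕ) (T : Fin (r + 1) → (Vn n →ₗ[ℂ] Vn n))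
  (h : Fin (r + 1) → Pn n), T 0 = LinearMap.id → LinearIndependent ℂ h →
  (∀ z, TT T (hv h z) z = 0) → 4 * n ≤ (r + 2) ^ 2

/-- KEY: `X k * g = ∑ B_a(k,i) X i * f a`; KEYA with `T_0 = id`, `T_{a+1} = - B_a`,
`h = Fin.cons g f`. -/
def S_KEY : Prop := ∀ (n r : ℕ) (f : Fin r → Pn n) (g : Pn n),
  LinearIndependent ℂ (Fin.cons g f : Fin (r + 1) → Pn n) →
  (∀ k : Fin n, X k * g ∈ Submodule.span ℂ (Set.range fun x : Fin n × Fin r => X x.1 * f x.2)) →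
  4 * n ≤ (r + 2) ^ 2

/-- PSD2 -/
def S_PSD2 : Prop := ∀ (n m : ℕ) (p : Fin m → Pn n) (A : Qn n), Sys n m p A → 1 ≤ n → ∀ s : ℕ,
  (∃ z Y : Fin s → Fin n → ℂ, (VM A z Y).det ≠ 0) →
  (∀ z Y : Fin (s + 1) → Fin n → ℂ, (VM A z Y).det = 0) → (s + 1) ^ 2 < 4 * n →
  s * n ≤ m + s * (s - 1) / 2 ∧ m ≤ s * n

end H95.FJ
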