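import Pool.Agent.H95.FJ.Defs
import Pool.Agent.H95.FI.PSD

open MvPolynomial

namespace H95.FJ
open H95.FG H95.FI

theorem t_PSD2 (hKEY : S_KEY) (hHD : S_HD) (hFUN : S_FUN) (hHER : S_HER) (hMAC : S_MAC) : S_PSD2 := by
  intro n m p A hs hn s hex hall hlt
  classical
  obtain ⟨f, ε, hf, hε, hA⟩ := hHD n s A (hHER n m p A hs hn) hex hall
  set u : Fin n × Fin s → Pn n := fun x => X x.1 * f x.2 with hu
  have hK : ∑ x : Fin n × Fin s, C (((ε x.2 : ℝ)) : ℂ) *
      (rename Sum.inl (u x) * rename Sum.inr (cj (u x))) =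
      ∑ l, rename Sum.inl (p l) * rename Sum.inr (cj (p l)) := by
    rw [hs.2]
    have hA' := hA
    rw [hA', Finset.sum_mul_sum, Fintype.sum_prod_type]
    refine Finset.sum_congr rfl fun k _ => Finset.sum_congr rfl fun i _ => ?_
    simp only [hu, cj_X_mul, map_mul, rename_X]
    ring
  have hfun := hFUN n (Fin n × Fin s) (Fin m) u (fun x => ε x.2) p hK
  have hmac : s * n ≤ Module.finrank ℂ (Submodule.span ℂ (Set.range u)) + s * (s - 1) / 2 :=
    hMAC n s f hf
  -- all signs are positive
  have hpos : ∀ i, 0 < ε i := by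
    by_contra hcon
    push Not at hcon
    obtain ⟨i0, hi0⟩ := hcon
    have hi0' : ε i0 < 0 := lt_of_le_of_ne hi0 (hε i0)
    set w : Fin n × {i // 0 < ε i} → Pn n := fun x => X x.1 * f x.2.1 with hw
    have hsub : ∀ x, u x ∈ Submodule.span ℂ (Set.range w) := by
      intro x0
      by_contra hx0
      obtain ⟨ξ, h1, h2⟩ := exists_fun _ hx0
      have hx2 : ¬ 0 < ε x0.2 := by
        intro h
        exact hx0 (Submodule.subset_span ⟨(x0.1, ⟨x0.2, h⟩), rfl⟩)
      have h3 : ∑ x, ε x.2 * ‖ξ (u x)‖ ^ 2 < 0 := by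
        have h4 : ∀ x, ε x.2 * ‖ξ (u x)‖ ^ 2 ≤ 0 := by
          intro x
          by_cases hx : 0 < ε x.2
          · have : ξ (u x) = 0 := h2 _ (Submodule.subset_span ⟨(x.1, ⟨x.2, hx⟩), rfl⟩)
            rw [this]; simp
          · push Not at hx
            exact mul_nonpos_of_nonpos_of_nonneg hx (by positivity)
        refine Finset.sum_neg' (fun x _ => h4 x) ⟨x0, Finset.mem_univ _, ?_⟩
        have : ε x0.2 < 0 := lt_of_le_of_ne (not_lt.1 hx2) (hε _)
        exact mul_neg_of_neg_of_pos this (by positivity)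
      rw [hfun ξ] at h3
      have h5 : 0 ≤ ∑ l, ‖ξ (p l)‖ ^ 2 := Finset.sum_nonneg fun l _ => by positivity
      linarith
    have h3 : Fintype.card {i // 0 < ε i} < s := by
      have := Fintype.card_subtype_lt (p := fun i => 0 < ε i) (x := i0) (not_lt.2 hi0)
      simpa using this
    set r := Fintype.card {i // 0 < ε i} with hr
    let eqv : {i // 0 < ε i} ≃ Fin r := Fintype.equivFin _
    let ff : Fin r → Pn n := fun a => f (eqv.symm a).1
    have hidx : Function.Injective (Fin.cons i0 (fun a => (eqv.symm a).1) : Fin (r + 1) → Fin s) := by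
      rw [Fin.cons_injective_iff]
      refine ⟨?_, ?_⟩
      · rintro ⟨a, ha⟩
        have h9 := (eqv.symm a).2
        have ha' : (eqv.symm a).1 = i0 := ha
        rw [ha'] at h9
        linarith
      · intro a b hab
        exact eqv.symm.injective (Subtype.ext hab)
    have hli : LinearIndependent ℂ (Fin.cons (f i0) ff : Fin (r + 1) → Pn n) := by
      have h := hf.comp _ hidx
      convert h using 1
      funext a
      refine Fin.cases ?_ (fun a => ?_) a
      · simp
      · simp [ff]
    have hmem : ∀ k : Fin n, X k * f i0 ∈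
        Submodule.span ℂ (Set.range fun x : Fin n × Fin r => X x.1 * ff x.2) := by
      intro k
      have h := hsub (k, i0)
      refine Submodule.span_mono ?_ h
      rintro _ ⟨⟨x, i⟩, rfl⟩
      exact ⟨(x, eqv i), by simp [ff, hw]⟩
    have h4 := hKEY n r ff (f i0) hli hmem
    have h5 : (r + 2) ^ 2 ≤ (s + 1) ^ 2 := Nat.pow_le_pow_left (by omega) 2
    omega
  -- both spans are equal
  have hspan : Submodule.span ℂ (Set.range p) = Submodule.span ℂ (Set.range u) := by
    apply le_antisymm
    · rw [Submodule.span_le]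
      rintro _ ⟨l, rfl⟩
      by_contra hl
      obtain ⟨ξ, h1, h2⟩ := exists_fun _ hl
      have h3 : ∑ x, ε x.2 * ‖ξ (u x)‖ ^ 2 = 0 := by
        refine Finset.sum_eq_zero fun x _ => ?_
        rw [h2 _ (Submodule.subset_span ⟨x, rfl⟩)]; simp
      rw [hfun ξ] at h3
      have h4 := (Finset.sum_eq_zero_iff_of_nonneg (fun l _ => by positivity)).1 h3 l
        (Finset.mem_univ l)
      apply h1
      simpa using h4
    · rw [Submodule.span_le]
      rintro _ ⟨x, rfl⟩
      by_contra hx
      obtain ⟨ξ, h1, h2⟩ := exists_fun _ hx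
      have h3 : ∑ l, ‖ξ (p l)‖ ^ 2 = 0 := by
        refine Finset.sum_eq_zero fun l _ => ?_
        rw [h2 _ (Submodule.subset_span ⟨l, rfl⟩)]; simp
      rw [← hfun ξ] at h3
      have h4 := (Finset.sum_eq_zero_iff_of_nonneg
        (fun x _ => mul_nonneg (hpos x.2).le (by positivity))).1 h3 x (Finset.mem_univ x)
      apply h1
      rcases mul_eq_zero.1 h4 with h | h
      · exact absurd h (hpos x.2).ne'
      · simpa using h
  have hm : Module.finrank ℂ (Submodule.span ℂ (Set.range p)) = m := by
    rw [finrank_span_eq_card hs.1, Fintype.card_fin]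
  rw [hspan] at hm
  have hle : Module.finrank ℂ (Submodule.span ℂ (Set.range u)) ≤ n * s := by
    have := finrank_range_le_card (R := ℂ) u
    rw [Fintype.card_prod, Fintype.card_fin, Fintype.card_fin] at this
    exact this
  rw [hm] at hmac hle
  exact ⟨hmac, by rw [mul_comm]; exact hle⟩

end H95.FJ
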