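import Pool.Agent.H95.FI.All
import Pool.Agent.H95.FJ.PSD2

open MvPolynomial

namespace H95.FJ
open H95.FG H95.FI

theorem top4 (hPSD2 : S_PSD2) : ∀ k n m : ℕ, 8 * k + 17 ≤ n → k * (k + 1) / 2 < n →
    m ∈ SosRanks 1 n → m + k * (k + 1) / 2 < (k + 1) * n →
    ∃ s, s ≤ k ∧ s * n ≤ m + s * (s - 1) / 2 ∧ m ≤ s * n := by
  intro k n m hn2 hn hm hlt
  obtain ⟨p, A, hs⟩ := Pool.Agent.H74.FG.pol n m hm
  have hkk : 2 * (k * (k + 1) / 2) = k * (k + 1) :=
    Nat.mul_div_cancel' (Nat.even_mul_succ_self k).two_dvd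
  have hkk1 : 2 * ((k + 1) * (k + 2) / 2) = (k + 1) * (k + 2) :=
    Nat.mul_div_cancel' (Nat.even_mul_succ_self (k + 1)).two_dvd
  have h4n : k ^ 2 + 11 * k + 18 ≤ 4 * n := by
    rcases Nat.lt_or_ge k 12 with h | h
    · nlinarith
    · nlinarith
  have hnot : ¬ Big A (k + 3) := by
    intro hB
    have h1 := all_SB n m p A hs (n / 2) (k + 3) (by omega) (by omega) (by omega) hB
    have h2 : n ≤ 2 * (n / 2) + 1 := by omega
    have h3 : (k + 3) * (k + 3 - 1) = (k + 3) * (k + 2) := by congr 1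
    rw [h3] at h1
    have h4 : (k + 3) * n ≤ (k + 3) * (2 * (n / 2) + 1) := Nat.mul_le_mul_left _ h2
    nlinarith
  obtain ⟨s, hsk, hB, hB'⟩ : ∃ s, s ≤ k + 2 ∧ Big A s ∧ ¬ Big A (s + 1) := by
    by_contra hcon
    push Not at hcon
    have hall : ∀ s, s ≤ k + 3 → Big A s := by
      intro s
      induction s with
      | zero => intro _; exact big_zero A
      | succ s ih => intro h; exact hcon s (by omega) (ih (by omega))
    exact hnot (hall _ le_rfl)
  have hsize : 2 * (m + n * s) < (n - 2 * s - 2) * (n - 2 * s - 1) := by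
    obtain ⟨q, hq⟩ : ∃ q, n = 2 * s + 2 + q := ⟨n - (2 * s + 2), by omega⟩
    have e1 : n - 2 * s - 2 = q := by omega
    have e2 : n - 2 * s - 1 = q + 1 := by omega
    rw [e1, e2]
    have h1 : 2 * (m + n * s) < (4 * k + 6) * n := by nlinarith
    have h2 : (4 * k + 6) * n ≤ q * (q + 1) := by
      obtain ⟨r, hr⟩ : ∃ r, n = 8 * k + 17 + r := ⟨n - (8 * k + 17), by omega⟩
      have h3 : 6 * k + 11 + r ≤ q := by omega
      have h4 : (6 * k + 11 + r) * (6 * k + 11 + r + 1) ≤ q * (q + 1) :=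
        Nat.mul_le_mul h3 (by omega)
      refine le_trans ?_ h4
      rw [hr]
      nlinarith
    omega
  have hGEN' := H88.FI.t_GEN H31.FI.t_ADA H1.FI.t_ADB n s A (by omega) hB (by
    intro z0 Y0 ho hd z Y h1 h2
    refine H53.FI.t_RKR n s A z0 Y0 z Y (fun i j => ?_)
    exact all_EF n m p A hs s hB' hsize z0 Y0 ho hd (z i) (Y j) (fun j' => h1 i j')
      (fun i' => h2 i' j))
  obtain ⟨z, Y, -, hd⟩ := hB
  have hss : (s + 1) ^ 2 < 4 * n := by
    have h1 : (s + 1) ^ 2 ≤ (k + 3) ^ 2 := Nat.pow_le_pow_left (by omega) 2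
    nlinarith
  have h := hPSD2 n m p A hs (by omega) s ⟨z, Y, hd⟩ hGEN' hss
  refine ⟨s, ?_, h.1, h.2⟩
  by_contra hcon
  have hs1 : s = k + 1 ∨ s = k + 2 := by omega
  rcases hs1 with hs1 | hs1
  · rw [hs1] at h
    have h1 := h.1
    have h2 : (k + 1) * (k + 1 - 1) / 2 = k * (k + 1) / 2 := by
      rw [Nat.add_sub_cancel, mul_comm]
    rw [h2] at h1
    omega
  · rw [hs1] at h
    have h1 := h.1
    have h2 : (k + 2) * (k + 2 - 1) / 2 = (k + 1) * (k + 2) / 2 := by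
      have : k + 2 - 1 = k + 1 := by omega
      rw [this, mul_comm]
    rw [h2] at h1
    nlinarith

end H95.FJ
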